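import Pool.Agent.Lib.MP_b2f51a_al.KZ.Main

/-! A non-zero, non-surjective homomorphism between two Weyl modules of level `l`. -/

open scoped TensorProduct

noncomputable section

namespace Pool.Agent.FS.SingVec

open Pool.Agent.Lib.MP_b2f51a_al Pool.Agent.Lib.MP_b2f51a_al.KZ

universe u

/-- Weyl modules of dominant highest weight are integrable. -/
lemma weyl_int (F : Type u) [Field F] {l m : ℕ} (hm : m ≤ l) (x : BaseExt F (VZ (wt l m)))
    (i : Fin 2) : ∃ K : ℕ, ∀ k, K ≤ k →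
      tens (1 : F) (eZ i k) • x = 0 ∧ tens (1 : F) (fZ i k) • x = 0 := by
  induction x using be_ind with
  | h0 => exact ⟨0, fun _ _ => ⟨smul_zero _, smul_zero _⟩⟩
  | ht a z =>
    obtain ⟨K, hK⟩ := L_int hm z.1 i
    refine ⟨K, fun k hk => ?_⟩
    have h1 : eZ i k • z = 0 := Subtype.ext (hK k hk).1
    have h2 : fZ i k • z = 0 := Subtype.ext (hK k hk).2
    exact ⟨by rw [one_smul_tm, h1, tm_zero], by rw [one_smul_tm, h2, tm_zero]⟩
  | hadd x y hx hy =>
    obtain ⟨n, hn⟩ := hx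
    obtain ⟨n', hn'⟩ := hy
    exact ⟨n + n', fun k hk => ⟨by
      rw [smul_add, (hn k (by omega)).1, (hn' k (by omega)).1, add_zero], by
      rw [smul_add, (hn k (by omega)).2, (hn' k (by omega)).2, add_zero]⟩⟩

/-- The homomorphism attached to a lattice vector that is singular modulo `p`. -/
theorem hom_of (F : Type u) [Field F] (p : ℕ) [CharP F p] {l m n : ℕ} (hm : m ≤ l) (hn : n ≤ l)
    (w : VZ (wt l m)) (hw : WtZ (wt l n) w)
    (he : ∀ i a, 0 < a → ∃ z : VZ (wt l m), eZ i a • w = (p : ℤ) • z)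
    (δ : VZ (wt l m) → VZ (wt l m) →ₗ[ℤ] ℤ) (γ : VZ (wt l m) →ₗ[ℤ] ℤ)
    (δf : ∀ i a z x, δ z (fZ i a • x) = δ (eZ i a • z) x)
    (γf : ∀ i a, 0 < a → ∃ z, ∀ x, γ (fZ i a • x) = δ z x)
    (δv : ∀ i a, 0 < a → ∀ x, δ (vZ _) (fZ i a • x) = 0)
    (δ0 : δ (vZ _) (vZ _) = 1) (δw : ∀ z, (p : ℤ) ∣ δ z w) (hγ : ¬ (p : ℤ) ∣ γ w) :
    ∃ s : Weyl F (wt l n) →ₗ[UF F] BaseExt F (VZ (wt l m)), s (weylGen F _) = tm F 1 w ∧
      ∀ N, ¬ IsCompl (LinearMap.range s) N := by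
  have h1 : IsWeightVector F (E := BaseExt F (VZ (wt l m))) (wt l n) (tm F 1 w) := fun i k => by
    rw [one_smul_tm, hw i k, tm_zsmul]
  have h2 : ∀ i a, 0 < a → tens (1 : F) (eZ i a) • tm F 1 w = 0 := by
    intro i a ha
    obtain ⟨z, hz⟩ := he i a ha
    rw [one_smul_tm, hz]
    change (1 : F) ⊗ₜ[ℤ] ((p : ℤ) • z) = (0 : F ⊗[ℤ] VZ (wt l m))
    rw [← TensorProduct.smul_tmul]
    simp
  obtain ⟨s, hs⟩ := exists_lift (E := BaseExt F (VZ (wt l m))) (weyl_int F hm) hn h1 h2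
  have bf : ∀ (φ ψ : VZ (wt l m) →ₗ[ℤ] ℤ) (u : UZ), (∀ x, φ (u • x) = ψ x) →
      ∀ q : BaseExt F (VZ (wt l m)), bfl F φ (tens (1 : F) u • q) = bfl F ψ q := by
    intro φ ψ u hu q
    induction q using be_ind with
    | h0 => simp
    | hadd q q' h h' => rw [smul_add, map_add, map_add, h, h']
    | ht c z => rw [one_smul_tm, bfl_tm, bfl_tm, hu]
  have hw0 : ∀ z, (δ z w : F) = 0 := fun z => (CharP.intCast_eq_zero_iff F p _).2 (δw z)
  have h3 : ∀ (u : UZ) z, bfl F (δ z) (tens (1 : F) u • tm F 1 w) = 0 := by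
    intro u
    let _ := resZ F (BaseExt F (VZ (wt l m)))
    have := span_le (N := BaseExt F (VZ (wt l m))) (lam := wt l n) (y := tm F 1 w) ⟨h1, h2⟩
      (⨅ z, (bfl F (δ z)).ker) (AddSubgroup.mem_iInf.2 fun z => by
        change bfl F (δ z) (tm F 1 w) = 0
        rw [bfl_tm, hw0, zero_mul])
      (fun i a x hx => AddSubgroup.mem_iInf.2 fun z => by
        change bfl F (δ z) (tens (1 : F) (fZ i a) • x) = 0
        rw [bf _ _ _ (δf i a z)]
        exact AddSubgroup.mem_iInf.1 hx _) u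
    exact fun z => AddSubgroup.mem_iInf.1 this z
  have h4 : ∀ (c : UF F) z, bfl F (δ z) (c • tm F 1 w) = 0 := by
    intro c z
    induction c using uf_ind with
    | h0 => rw [zero_smul, map_zero]
    | hadd c c' h h' => rw [add_smul, map_add, h, h', add_zero]
    | ht a u =>
      have h5 := h3 u z
      rw [one_smul_tm, bfl_tm, mul_one] at h5
      rw [smul_tm, bfl_tm, h5, zero_mul]
  have h5 : ∀ q ∈ LinearMap.range s, ∀ z, bfl F (δ z) q = 0 := by
    rintro _ ⟨x, rfl⟩ z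
    obtain ⟨c, rfl⟩ := weyl_span _ x
    rw [map_smul, hs, h4]
  refine ⟨s, hs, fun N hN => hγ ?_⟩
  let π := (LinearMap.range s).projection N hN
  let G : VZ (wt l m) →+ F := AddMonoidHom.mk'
    (fun x => bfl F γ (π (tm F 1 x)) - (δ (vZ _) x : F) * bfl F γ (π (tm F 1 (vZ _))))
    fun x x' => by
      simp only [tm_add, map_add]
      push_cast
      ring
  have h6 : ∀ x, x ∈ G.ker := by
    refine VZ_ind G.ker ?_ fun i a ha x _ => ?_
    · change bfl F γ (π (tm F 1 _)) - (δ (vZ _) _ : F) * bfl F γ (π (tm F 1 (vZ _))) = 0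
      rw [δ0]
      simp
    · change bfl F γ (π (tm F 1 _)) - (δ (vZ _) _ : F) * bfl F γ (π (tm F 1 (vZ _))) = 0
      obtain ⟨z, hz⟩ := γf i a ha
      rw [← one_smul_tm, map_smul, bf _ _ _ hz, h5 _ (Submodule.projection_apply_mem hN _),
        δv i a ha]
      simp
  have h7 : bfl F γ (π (tm F 1 w)) - (δ (vZ _) w : F) * bfl F γ (π (tm F 1 (vZ _))) = 0 := h6 w
  have h8 : π (tm F 1 w) = tm F 1 w :=
    Submodule.projection_apply_of_mem_left hN ⟨_, hs⟩
  rwa [h8, hw0, zero_mul, sub_zero, bfl_tm, mul_one, CharP.intCast_eq_zero_iff F p] at h7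

variable {l m n k : ℕ}

/-- The graded pieces of the lattice. -/
def gV (P : Emb l m n) (k : ℕ) (a : ℤ) : Submodule ℤ (VZ (wt l m)) :=
  (gZ P k 0 a).comap (toZ (iZ n 0))

lemma deg_inl {P : Emb l m n} {u : U} {a b : ℤ} {x : L (wt l m)}
    (h : Deg P k a (x, 0) → Deg P k b (u • ((x, 0) : LL l m n))) (hx : Deg P k a (x, 0)) :
    Deg P k b (u • x, 0) := by
  have := h hx
  rwa [Prod.smul_mk, smul_zero] at this

lemma gV_internal {P : Emb l m n} {a b : ℤ} (h1 : Deg P k a (hwv _, 0))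
    (h2 : Deg P k b (0, hwv _)) : DirectSum.IsInternal (gV P k) := by
  apply DirectSum.isInternal_submodule_of_iSupIndep_of_iSup_eq_top
  · intro c
    rw [Submodule.disjoint_def]
    intro x hx hx'
    have ind := (gZ_internal h1 h2).submodule_iSupIndep c
    have h3 : (⨆ j, ⨆ _ : j ≠ c, gV P k j) ≤
        (⨆ j, ⨆ _ : j ≠ c, gZ P k 0 j).comap (toZ (iZ n 0)) :=
      iSup₂_le fun j hj z hz => Submodule.mem_iSup_of_mem j (Submodule.mem_iSup_of_mem hj hz)
    have h4 := Submodule.disjoint_def.1 ind _ hx (h3 hx')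
    exact iZ_inj (h4.trans (map_zero (iZ n 0)).symm)
  · have := closure_top {hwv (wt l m)} (fun x => ∃ c, Deg P k c (x, 0))
      (by rintro x rfl; exact ⟨_, h1⟩)
      (fun i j x ⟨c, hc⟩ => ⟨_, deg_inl (fun h => h.e i j) hc⟩)
      (fun i j x ⟨c, hc⟩ => ⟨_, deg_inl (fun h => h.f i j) hc⟩)
      (fun i j x ⟨c, hc⟩ => ⟨_, deg_inl (fun h => h.h i j) hc⟩)
    rw [eq_top_iff]
    rintro x -
    have h1 : AddSubgroup.closure {x : VZ (wt l m) | ∃ c, Deg P k c (x.1, 0)} ≤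
        (⨆ c, gV P k c).toAddSubgroup := by
      rw [AddSubgroup.closure_le]
      rintro z ⟨c, hc⟩
      exact Submodule.mem_iSup_of_mem c hc
    exact h1 (this.ge trivial)

theorem main (F : Type u) [Field F] (p : ℕ) [CharP F p] (hp : p.Prime) (h2 : 2 < p) {l m k : ℕ}
    (hm : m + 2 ≤ l) (hk : p + (m + 2) = (l + 2) * k) :
    ∃ s : Weyl F (wt l (m + 2)) →ₗ[UF F] Weyl F (wt l m),
      (∃ g : ℤ → AddSubgroup (Weyl F (wt l m)), IsDegreeGrading F g ∧
        weylGen F (wt l m) ∈ g 0 ∧ s (weylGen F (wt l (m + 2))) ∈ g (-k)) ∧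
      ∀ N, ¬ IsCompl (LinearMap.range s) N := by
  obtain ⟨v, y1, hv, v1, v0, ⟨u0, hu0⟩, yd, yw, ye, yp, yv, yu⟩ := Lv.exists_y hm hp h2 hk
  obtain ⟨Pm, m1, m2, m3⟩ := Lv.exists_embed hv v1
  obtain ⟨Pn, n1, n2, n3⟩ := Lv.exists_embed (Lv.hw_nu hm) (Lv.ip_bv_self _)
  have hm' : m ≤ l := by omega
  obtain ⟨y, hy⟩ : ∃ y, Pm y = y1 := ⟨u0 • hwv _, by rw [m1, m2, hu0]⟩
  have mem : ∀ x, Pm x ∈ latt (Lv.fockRep l).rho v → x ∈ VZ (wt l m) := by
    rintro x ⟨u, hu, h⟩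
    exact mem_VZ.2 ⟨u, hu, m3 (by rw [m1, m2, h])⟩
  have me : ∀ i a (x : L (wt l m)), Pm (eZ i a • x) = dpow ((Lv.fockRep l).eg i) a (Pm x) :=
    fun i a x => (m1 (dpow (e i) a) x).trans (by rw [map_dpow, LoopRep.rho_e])
  have mf : ∀ i a (x : L (wt l m)), Pm (fZ i a • x) = dpow ((Lv.fockRep l).fg i) a (Pm x) :=
    fun i a x => (m1 (dpow (f i) a) x).trans (by rw [map_dpow, LoopRep.rho_f])
  have hw : ∀ i, h i • y = (wt l (m + 2) i : ℂ) • y := fun i => m3 (by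
    rw [m1, map_smul, hy, LoopRep.rho_h, yw i])
  have he : ∀ i a, 0 < a → eZ i a • y ∈ VZ (wt l m) := fun i a ha =>
    mem _ (by rw [me, hy]; exact ye i a ha)
  have af : ∀ i a (x x' : L (wt l m)), ip (Pm (fZ i a • x)) (Pm x') = ip (Pm x) (Pm (eZ i a • x')) :=
    fun i a x x' => by rw [mf, me, adj_dpow (Lv.adj_eg i).symm]
  have av : ∀ i a, 0 < a → ∀ x : L (wt l m), ip (Pm (hwv _)) (Pm (fZ i a • x)) = 0 :=
    fun i a ha x => by
      rw [← ip_conj, af, (hwZ_hwv _).e i a ha, map_zero, ip_zero_right, map_zero]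
  have vv : ip (Pm (hwv _)) (Pm (hwv _)) = ((1 : ℤ) : ℂ) := by rw [m2, v1, Int.cast_one]
  have vy : ip (Pm (hwv _)) (Pm y) = ((0 : ℤ) : ℂ) := by rw [m2, hy, yv, Int.cast_zero]
  have i0 := int_ind (fun x : VZ (wt l m) => ip (Pm (hwv _)) (Pm x))
      (fun a b => by rw [Submodule.coe_add, map_add, ip_add_right])
      ⟨1, vv⟩
      fun i a ha x => ⟨0, (av i a ha x).trans Int.cast_zero.symm⟩
  have i1 : ∀ x x' : VZ (wt l m), ∃ n : ℤ, ip (Pm x) (Pm x') = n := by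
    intro x x'
    have := VZ_ind (⨅ x' : VZ (wt l m), intSub (fun x : VZ (wt l m) => ip (Pm x) (Pm x'))
        fun a b => by rw [Submodule.coe_add, map_add, ip_add_left])
      (AddSubgroup.mem_iInf.2 fun x' => mem_intSub.2 (i0 x'))
      (fun i a _ x hx => AddSubgroup.mem_iInf.2 fun x' => mem_intSub.2 (by
        obtain ⟨n, hn⟩ := mem_intSub.1 (AddSubgroup.mem_iInf.1 hx (eZ i a • x'))
        exact ⟨n, (af i a x x').trans hn⟩)) x
    have h3 := mem_intSub.1 (AddSubgroup.mem_iInf.1 this x')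
    exact h3
  have i2 := int_ind (fun x : VZ (wt l m) => ip (Pm x) (Pm y))
      (fun a b => by rw [Submodule.coe_add, map_add, ip_add_left])
      ⟨0, vy⟩
      fun i a ha x => by
        obtain ⟨n, hn⟩ := i1 x ⟨_, he i a ha⟩
        exact ⟨n, (af i a x y).trans hn⟩
  choose δ hδ using fun z : VZ (wt l m) => exists_int_hom
    (AddMonoidHom.mk' (fun x : VZ (wt l m) => ip (Pm x) (Pm z)) fun a b => by
      rw [Submodule.coe_add, map_add, ip_add_left]) (fun x => i1 x z)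
  obtain ⟨γ, hγ⟩ := exists_int_hom
    (AddMonoidHom.mk' (fun x : VZ (wt l m) => ip (Pm x) (Pm y)) fun a b => by
      rw [Submodule.coe_add, map_add, ip_add_left]) i2
  simp only [AddMonoidHom.mk'_apply] at hδ hγ
  have inj := Int.cast_injective (α := ℂ)
  let w : VZ (wt l m) := ⟨(p : ℂ) • y, mem _ (by rw [map_smul, hy]; exact yp)⟩
  have hwP : Pm w = (p : ℂ) • Pm y := map_smul _ _ _
  have wz : (w : L (wt l m)) = (p : ℤ) • y := by
    change (p : ℂ) • y = _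
    rw [← Int.cast_smul_eq_zsmul ℂ, Int.cast_natCast]
  obtain ⟨s, hs, hN⟩ := hom_of F p hm' hm w
    (fun i j => Subtype.ext (by
      change hZ i j • (w : L (wt l m)) = (Ring.choose (wt l (m + 2) i) j : ℤ) • (w : L (wt l m))
      rw [wz, smul_comm, wtZ_of hw i j, smul_comm]))
    (fun i a ha => ⟨⟨_, he i a ha⟩, Subtype.ext (by
      change eZ i a • (w : L (wt l m)) = (p : ℤ) • eZ i a • y
      rw [wz, smul_comm])⟩) δ γ
    (fun i a z x => inj (by rw [hδ, hδ]; exact af i a x z))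
    (fun i a ha => ⟨⟨_, he i a ha⟩, fun x => inj (by rw [hγ, hδ]; exact af i a x y)⟩)
    (fun i a ha x => inj (by
      rw [hδ, Int.cast_zero, ← ip_conj]
      exact (congrArg _ (av i a ha x)).trans (map_zero _)))
    (inj ((hδ _ _).trans vv))
    (fun z => ⟨γ z, inj (by
      rw [hδ, hwP, ip_smul_left, map_natCast, ← ip_conj, ← hγ, map_intCast]
      push_cast
      rfl)⟩)
    (by
      obtain ⟨a, b, ha, -, hab⟩ := yu
      have : b * γ w = a := inj (by
        rw [Int.cast_mul, hγ, hwP, ip_smul_left, map_natCast, hy, hab])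
      exact fun h => ha (this ▸ h.mul_left b))
  let P : Emb l m (m + 2) := ⟨Pm.prodMap Pn, m3.prodMap n3, fun u x => by
    rw [rho_prod]
    exact Prod.ext (m1 u x.1) (n1 u x.2)⟩
  have d1 : Deg P k 0 (hwv _, 0) := by
    refine Prod.ext ?_ ?_
    · change -Lv.Dg Lv.eng (Pm (hwv _)) = _
      rw [m2, v0]
      simp
    · simp [dd, P]
  have d2 : Deg P k (-k) (0, hwv _) := by
    refine Prod.ext ?_ ?_
    · simp [dd, P]
    · change -Lv.Dg Lv.eng (Pn (hwv _)) - (k : ℂ) • Pn (hwv _) = ((-k : ℤ) : ℂ) • Pn (hwv _)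
      rw [n2, Lv.eng_nu]
      simp
  have d3 : Deg P k (-k) (w.1, 0) := by
    refine Prod.ext ?_ ?_
    · change -Lv.Dg Lv.eng (Pm w) = ((-k : ℤ) : ℂ) • Pm w
      rw [hwP, map_smul, hy, yd, smul_comm]
      simp
    · simp [dd, P]
  refine ⟨s, ⟨fun n => bsub F (gV P k n), ?_, tm_mem_bsub F 1 d1, ?_⟩, hN⟩
  · exact isGrading F (gV P k) (gV_internal d1 d2)
      (fun n i j x hx => deg_inl (fun h => h.e i j) hx)
      (fun n i j x hx => deg_inl (fun h => h.f i j) hx)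
      (fun n i j x hx => deg_inl (fun h => h.h i j) hx)
  · exact hs ▸ tm_mem_bsub F 1 d3

end Pool.Agent.FS.SingVec
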